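import Mathlib
import Pool.Agent.H766R2.Illum

set_option autoImplicit false

/-!
Hadwiger's covering conjecture for convex bodies with block symmetry.
-/

namespace Pool.Agent.Results.MP_eba1ef_gt.BlockSymmetric

open Set Pool.Agent.H766R2.Illum

section round

/-- On a finite-dimensional inner product space: a finite set of directions such that every nonzero
vector has negative inner product with one of them. -/
theorem good_round {V : Type*} [NormedAddCommGroup V] [InnerProductSpace ℝ V]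
    [FiniteDimensional ℝ V] {D : Finset V} (h0 : (0 : V) ∉ D)
    (h : ∀ y : V, y ≠ 0 → ∃ u ∈ D, inner ℝ u y < 0) :
    Good (fun y : V => Metric.closedBall 0 ‖y‖) D := by
  classical
  refine ⟨h0, ?_⟩
  intro R
  rcases D.eq_empty_or_nonempty with hD | hD
  · refine ⟨1, one_pos, fun y hy => ?_⟩
    obtain ⟨u, hu, _⟩ := h y hy
    rw [hD] at hu; simp at hu
  -- uniform constant
  have hcont : Continuous fun y : V => D.inf' hD fun u => inner ℝ u y := by
    apply Continuous.finset_inf'_apply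
    intro u _
    fun_prop
  obtain ⟨c1, hc1, hc⟩ : ∃ c1 : ℝ, 0 < c1 ∧ ∀ y : V, ‖y‖ = 1 → ∃ u ∈ D, inner ℝ u y ≤ -c1 := by
    rcases (Metric.sphere (0 : V) 1).eq_empty_or_nonempty with he | hne
    · refine ⟨1, one_pos, fun y hy => ?_⟩
      have : y ∈ Metric.sphere (0 : V) 1 := by simpa using hy
      rw [he] at this; simp at this
    · obtain ⟨y0, hy0, hmax⟩ := (isCompact_sphere (0 : V) 1).exists_isMaxOn hne hcont.continuousOn
      have hy0' : ‖y0‖ = 1 := by simpa using hy0
      have hy0ne : y0 ≠ 0 := by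
        intro h'; rw [h', norm_zero] at hy0'; norm_num at hy0'
      refine ⟨-(D.inf' hD fun u => inner ℝ u y0), ?_, ?_⟩
      · obtain ⟨u, hu, hlt⟩ := h y0 hy0ne
        have := Finset.inf'_le (fun u => inner ℝ u y0) hu
        linarith
      · intro y hy
        have h1 := hmax (a := y) (by simpa using hy)
        simp only [mem_ofPred_eq] at h1
        obtain ⟨u, hu, he⟩ := Finset.exists_mem_eq_inf' hD (fun u => inner ℝ u y)
        exact ⟨u, hu, by rw [← he]; simpa using h1⟩
  obtain ⟨M, hM0, hM⟩ : ∃ M : ℝ, 0 < M ∧ ∀ u ∈ D, ‖u‖ ^ 2 ≤ M := by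
    refine ⟨1 + ∑ u ∈ D, ‖u‖ ^ 2, by positivity, fun u hu => ?_⟩
    have := Finset.single_le_sum (f := fun u : V => ‖u‖ ^ 2) (fun i _ => by positivity) hu
    linarith
  set R' : ℝ := |R| + 1 with hR'
  have hR'0 : 0 < R' := by positivity
  refine ⟨c1 / (2 * R'), by positivity, ?_⟩
  intro y hy hyR
  have hny : 0 < ‖y‖ := norm_pos_iff.2 hy
  have hyR' : ‖y‖ ≤ R' := hyR.trans ((le_abs_self R).trans (by linarith))
  obtain ⟨u, hu, hlt⟩ := hc (‖y‖⁻¹ • y) (by rw [norm_smul, norm_inv, norm_norm]; field_simp)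
  have hin : inner ℝ u y ≤ -c1 * ‖y‖ := by
    rw [inner_smul_right] at hlt
    have := mul_le_mul_of_nonneg_left hlt hny.le
    rw [← mul_assoc, mul_inv_cancel₀ hny.ne', one_mul] at this
    linarith
  refine ⟨u, hu, min (c1 * ‖y‖ / M) (R' / c1), by positivity, ?_⟩
  intro t ht0 ht
  have ht1 : t * M ≤ c1 * ‖y‖ := by
    have := ht.trans (min_le_left _ _)
    rwa [le_div_iff₀ hM0] at this
  have ht2 : c1 / (2 * R') * t ≤ 1 / 2 := by
    have h3 := ht.trans (min_le_right _ _)
    rw [le_div_iff₀ hc1] at h3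
    rw [div_mul_eq_mul_div, div_le_iff₀ (by positivity)]
    linarith
  set s : ℝ := c1 / (2 * R') * t with hs
  have hs0 : 0 < s := by positivity
  have h1s : 0 < 1 - s := by linarith
  refine ⟨by linarith, (1 - s)⁻¹ • (y + t • u), ?_, ?_⟩
  · simp only [Metric.mem_closedBall, dist_zero_right]
    rw [norm_smul, norm_inv, Real.norm_eq_abs, abs_of_pos h1s, inv_mul_le_iff₀ h1s]
    apply le_of_sq_le_sq _ (by positivity)
    have e1 : ‖y + t • u‖ ^ 2 = ‖y‖ ^ 2 + 2 * t * inner ℝ u y + t ^ 2 * ‖u‖ ^ 2 := by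
      rw [norm_add_sq_real, inner_smul_right, norm_smul, real_inner_comm, Real.norm_eq_abs,
        mul_pow, sq_abs]
      ring
    rw [e1]
    have h4 : t ^ 2 * ‖u‖ ^ 2 ≤ t * (c1 * ‖y‖) := by
      have := hM u hu
      nlinarith [mul_le_mul_of_nonneg_left this (sq_nonneg t)]
    have h5 : s * ‖y‖ ≤ c1 * t / 2 := by
      rw [hs, div_mul_eq_mul_div, div_mul_eq_mul_div, div_le_iff₀ (by positivity)]
      nlinarith [mul_le_mul_of_nonneg_left hyR' (mul_nonneg hc1.le ht0.le)]
    nlinarith [mul_le_mul_of_nonneg_left hin (mul_nonneg zero_le_two ht0.le),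
      mul_le_mul_of_nonneg_right h5 hny.le, mul_nonneg (sq_nonneg s) (sq_nonneg ‖y‖)]
  · rw [smul_smul, mul_inv_cancel₀ h1s.ne', one_smul]

end round


section euclid

/-- directions in Euclidean space: the standard basis and minus its sum -/
noncomputable def eDir (d : ℕ) : Finset (EuclideanSpace ℝ (Fin d)) :=
  insert (-∑ i, EuclideanSpace.single i (1 : ℝ))
    (Finset.univ.image fun i : Fin d => EuclideanSpace.single i (1 : ℝ))

theorem card_eDir (d : ℕ) : (eDir d).card ≤ d + 1 := by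
  refine (Finset.card_insert_le _ _).trans ?_
  have := Finset.card_image_le (s := (Finset.univ : Finset (Fin d)))
    (f := fun i : Fin d => EuclideanSpace.single i (1 : ℝ))
  simp only [Finset.card_univ, Fintype.card_fin] at this
  omega

theorem good_eDir {d : ℕ} (hd : 1 ≤ d) :
    Good (fun y : EuclideanSpace ℝ (Fin d) => Metric.closedBall 0 ‖y‖) (eDir d) := by
  classical
  have hsum : ∀ j : Fin d, (∑ i, EuclideanSpace.single i (1 : ℝ) : EuclideanSpace ℝ (Fin d)) j
      = 1 := by
    intro j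
    rw [WithLp.ofLp_sum, Finset.sum_apply]
    simp
  apply good_round
  · intro h
    rw [eDir, Finset.mem_insert, Finset.mem_image] at h
    rcases h with h | ⟨i, _, h⟩
    · have h1 := hsum ⟨0, hd⟩
      rw [neg_eq_zero.1 h.symm] at h1
      simp at h1
    · have h1 : (EuclideanSpace.single i (1 : ℝ) : EuclideanSpace ℝ (Fin d)) i = 0 := by
        rw [h]; rfl
      simp at h1
  · intro y hy
    by_contra hcon
    push Not at hcon
    have h1 : ∀ i, 0 ≤ y i := by
      intro i
      have := hcon (EuclideanSpace.single i (1 : ℝ)) (by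
        rw [eDir]; exact Finset.mem_insert_of_mem (Finset.mem_image_of_mem _ (Finset.mem_univ i)))
      rwa [EuclideanSpace.inner_single_left, map_one, one_mul] at this
    have h2 := hcon (-∑ i, EuclideanSpace.single i (1 : ℝ)) (by
        rw [eDir]; exact Finset.mem_insert_self _ _)
    rw [inner_neg_left, sum_inner] at h2
    simp only [EuclideanSpace.inner_single_left, map_one, one_mul] at h2
    have h3 : ∑ i, y i ≤ 0 := by linarith
    have h4 : ∀ i ∈ Finset.univ, y i = 0 :=
      (Finset.sum_eq_zero_iff_of_nonneg fun i _ => h1 i).1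
        (le_antisymm h3 (Finset.sum_nonneg fun i _ => h1 i))
    apply hy
    ext i
    exact h4 i (Finset.mem_univ i)

end euclid

section cyclic

open Complex

/-- hull of the orbit under the `k`-th roots of unity -/
def cHull (k : ℕ) (z : ℂ) : Set ℂ := convexHull ℝ {w | ∃ ω : ℂ, ω ^ k = 1 ∧ w = ω * z}

/-- the three cube roots of unity -/
noncomputable def cDir : Finset ℂ :=
  {1, ⟨-1/2, Real.sqrt 3 / 2⟩, ⟨-1/2, -(Real.sqrt 3 / 2)⟩}

theorem card_cDir : cDir.card ≤ 3 := Finset.card_le_three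

theorem self_mem_cHull (k : ℕ) (z : ℂ) : z ∈ cHull k z :=
  subset_convexHull ℝ _ ⟨1, by simp, by simp⟩

theorem zero_mem_cHull {k : ℕ} (hk : 2 ≤ k) (z : ℂ) : (0 : ℂ) ∈ cHull k z := by
  have hprim := Complex.isPrimitiveRoot_exp k (by omega)
  set ζ := Complex.exp (2 * Real.pi * Complex.I / k) with hζ
  have hsum := hprim.geom_sum_eq_zero (by omega)
  have hconv : Convex ℝ (cHull k z) := convex_convexHull ℝ _
  have h1 := hconv.sum_mem (t := Finset.range k) (w := fun _ => (1 : ℝ) / k)
    (z := fun j => ζ ^ j * z) (by intro i _; positivity)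
    (by
      rw [Finset.sum_const, Finset.card_range, nsmul_eq_mul, mul_one_div_cancel]
      have : k ≠ 0 := by omega
      exact_mod_cast this)
    (by
      intro j _
      apply subset_convexHull
      refine ⟨ζ ^ j, ?_, rfl⟩
      rw [← pow_mul, mul_comm, pow_mul, hprim.pow_eq_one, one_pow])
  convert h1 using 1
  rw [← Finset.smul_sum, ← Finset.sum_mul, hsum]
  simp

theorem star_cHull {k : ℕ} (hk : 2 ≤ k) (y z : ℂ) (hz : z ∈ cHull k y) (a : ℝ) (h0 : 0 ≤ a)
    (h1 : a ≤ 1) : a • z ∈ cHull k y := by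
  have hconv : Convex ℝ (cHull k y) := convex_convexHull ℝ _
  have := hconv hz (zero_mem_cHull hk y) h0 (sub_nonneg.2 h1) (by ring)
  rwa [smul_zero, add_zero] at this

theorem exists_dir (z : ℂ) : ∃ u ∈ cDir, (u * (starRingEnd ℂ) z).re ≤ -(‖z‖ / 2) := by
  have h3 : Real.sqrt 3 ^ 2 = 3 := Real.sq_sqrt (by norm_num)
  have hn : ‖z‖ ^ 2 = z.re ^ 2 + z.im ^ 2 := by
    rw [← Complex.normSq_eq_norm_sq, Complex.normSq_apply]; ring
  by_contra hcon
  push Not at hcon
  have a1 := hcon 1 (by simp [cDir])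
  have a2 := hcon ⟨-1/2, Real.sqrt 3 / 2⟩ (by simp [cDir])
  have a3 := hcon ⟨-1/2, -(Real.sqrt 3 / 2)⟩ (by simp [cDir])
  simp only [one_mul, Complex.conj_re, Complex.mul_re, Complex.conj_im] at a1 a2 a3
  set x := z.re
  set y := z.im
  set n := ‖z‖
  have hn0 : 0 ≤ n := norm_nonneg _
  have hxn : x ≤ n := by nlinarith [sq_nonneg y, sq_nonneg (x - n)]
  -- x > -n/2 ; √3 |y| < n - x
  have b1 : Real.sqrt 3 * y < n - x := by nlinarith
  have b2 : -(Real.sqrt 3 * y) < n - x := by nlinarith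
  have b3 : (Real.sqrt 3 * y) ^ 2 < (n - x) ^ 2 := by
    apply sq_lt_sq' <;> linarith
  nlinarith

theorem good_cDir {k : ℕ} (hk : 7 ≤ k) : Good (cHull k) cDir := by
  classical
  have hkpos : (0 : ℝ) < k := by
    have : 0 < k := by omega
    exact_mod_cast this
  have h3 : Real.sqrt 3 ^ 2 = 3 := Real.sq_sqrt (by norm_num)
  have h30 : 0 < Real.sqrt 3 := Real.sqrt_pos.2 (by norm_num)
  constructor
  · intro h
    simp only [cDir, Finset.mem_insert, Finset.mem_singleton] at h
    rcases h with h | h | h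
    · exact zero_ne_one h
    · have := congrArg Complex.re h
      simp only [Complex.zero_re] at this
      linarith
    · have := congrArg Complex.re h
      simp only [Complex.zero_re] at this
      linarith
  intro R
  -- the angle
  set θ : ℝ := 2 * Real.pi / k with hθ
  have hθ0 : 0 < θ := by rw [hθ]; positivity
  have hk7 : (7 : ℝ) ≤ k := by exact_mod_cast hk
  have hθ3 : θ / 2 < Real.pi / 6 := by
    rw [hθ, div_div, mul_comm (k : ℝ) 2, mul_div_mul_left _ _ two_ne_zero]
    apply div_lt_div_of_pos_left Real.pi_pos (by norm_num) (by linarith)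
  set ζ : ℂ := Complex.exp (θ * Complex.I) with hζ
  have hζk : ζ ^ k = 1 := by
    rw [hζ, ← Complex.exp_nat_mul, hθ]
    have : (k : ℂ) * ((2 * Real.pi / k : ℝ) * Complex.I) = 2 * Real.pi * Complex.I := by
      push_cast
      have : (k : ℂ) ≠ 0 := by exact_mod_cast (by omega : k ≠ 0)
      field_simp
    rw [this, Complex.exp_two_pi_mul_I]
  set C := Real.cos θ with hC
  set S := Real.sin θ with hS
  have hζre : ζ = ⟨C, S⟩ := by
    apply Complex.ext
    · rw [hζ, Complex.exp_ofReal_mul_I_re]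
    · rw [hζ, Complex.exp_ofReal_mul_I_im]
  set ζ' : ℂ := ⟨C, -S⟩ with hζ'
  have hζζ' : ζ * ζ' = 1 := by
    rw [hζre, hζ']
    apply Complex.ext
    · simp only [Complex.mul_re, Complex.one_re]
      nlinarith [Real.sin_sq_add_cos_sq θ]
    · simp only [Complex.mul_im, Complex.one_im]; ring
  have hζ'k : ζ' ^ k = 1 := by
    have : (ζ * ζ') ^ k = 1 := by rw [hζζ', one_pow]
    rwa [mul_pow, hζk, one_mul] at this
  have hpi := Real.pi_pos
  have hS0 : 0 < S := Real.sin_pos_of_pos_of_lt_pi hθ0 (by linarith)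
  have hC1 : C < 1 := by
    have h4 := Real.sin_sq_add_cos_sq θ
    have : C ^ 2 < 1 := by nlinarith
    nlinarith
  -- tangent bound: √3 (1 - C) < S
  have htan : Real.sqrt 3 * (1 - C) < S := by
    have ht1 : Real.tan (θ / 2) < Real.tan (Real.pi / 6) :=
      Real.tan_lt_tan_of_lt_of_lt_pi_div_two (by linarith) (by linarith) hθ3
    rw [Real.tan_pi_div_six, Real.tan_eq_sin_div_cos] at ht1
    have hc2 : 0 < Real.cos (θ / 2) := Real.cos_pos_of_mem_Ioo ⟨by linarith, by linarith⟩
    have hs2 : 0 < Real.sin (θ / 2) := Real.sin_pos_of_pos_of_lt_pi (by linarith) (by linarith)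
    rw [div_lt_div_iff₀ hc2 h30, one_mul] at ht1
    have e1 : 1 - C = 2 * Real.sin (θ / 2) ^ 2 := by
      have : C = Real.cos (2 * (θ / 2)) := by rw [hC]; congr 1; ring
      rw [this, Real.cos_two_mul]
      nlinarith [Real.sin_sq_add_cos_sq (θ / 2)]
    have e2 : S = 2 * Real.sin (θ / 2) * Real.cos (θ / 2) := by
      have : S = Real.sin (2 * (θ / 2)) := by rw [hS]; congr 1; ring
      rw [this, Real.sin_two_mul]
    rw [e1, e2]
    nlinarith
  set R' : ℝ := |R| + 1 with hR'
  have hR'0 : 0 < R' := by positivity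
  -- δ = S - √3 (1-C)
  set δ : ℝ := S - Real.sqrt 3 * (1 - C) with hδ
  have hδ0 : 0 < δ := by rw [hδ]; linarith
  set c : ℝ := δ / (2 * S * R') with hc
  have hc0 : 0 < c := by rw [hc]; positivity
  refine ⟨c, hc0, ?_⟩
  intro z hz hzR
  have hnz : 0 < ‖z‖ := norm_pos_iff.2 hz
  have hzR' : ‖z‖ ≤ R' := hzR.trans ((le_abs_self R).trans (by linarith))
  obtain ⟨u, hu, hre⟩ := exists_dir z
  have hun : ‖u‖ = 1 := by
    have h5 : ‖u‖ ^ 2 = 1 := by
      rw [← Complex.normSq_eq_norm_sq, Complex.normSq_apply]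
      simp only [cDir, Finset.mem_insert, Finset.mem_singleton] at hu
      rcases hu with h | h | h
      · rw [h]; simp
      · rw [h]; simp only; nlinarith
      · rw [h]; simp only; nlinarith
    nlinarith [norm_nonneg u]
  -- q = u / z
  set q : ℂ := u / z with hq
  have hqz : q * z = u := div_mul_cancel₀ _ hz
  have hqn : ‖q‖ = 1 / ‖z‖ := by rw [hq, norm_div, hun]
  have hqre : q.re ≤ -(‖q‖ / 2) := by
    have e : q = (u * (starRingEnd ℂ) z) / ((‖z‖ ^ 2 : ℝ) : ℂ) := by
      rw [hq, ← Complex.normSq_eq_norm_sq, ← Complex.mul_conj]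
      have : (starRingEnd ℂ) z ≠ 0 := by simpa using hz
      field_simp
    rw [e, Complex.div_ofReal_re, ← e, hqn, div_le_iff₀ (by positivity)]
    calc (u * (starRingEnd ℂ) z).re ≤ -(‖z‖ / 2) := hre
      _ = -(1 / ‖z‖ / 2) * ‖z‖ ^ 2 := by field_simp
  have hqim : |q.im| ≤ Real.sqrt 3 * (-q.re) := by
    have h6 : ‖q‖ ^ 2 = q.re ^ 2 + q.im ^ 2 := by
      rw [← Complex.normSq_eq_norm_sq, Complex.normSq_apply]; ring
    have h7 : ‖q‖ ≤ 2 * (-q.re) := by linarith
    have h8 : ‖q‖ ^ 2 ≤ (2 * (-q.re)) ^ 2 := pow_le_pow_left₀ (norm_nonneg _) h7 2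
    have h9 : 0 ≤ -q.re := by nlinarith [norm_nonneg q]
    apply abs_le_of_sq_le_sq _ (by positivity)
    rw [mul_pow, h3]
    nlinarith
  have hre0 : 1 / (2 * R') ≤ -q.re := by
    have : 1 / (2 * R') ≤ ‖q‖ / 2 := by
      rw [hqn, div_div, one_div, one_div, mul_comm ‖z‖ 2]
      apply inv_anti₀ (by positivity)
      linarith
    linarith
  -- coefficients
  set P : ℝ := (-q.re - c) / (1 - C) with hP
  set Q : ℝ := q.im / S with hQ
  have hPQ : |Q| ≤ P := by
    rw [hQ, abs_div, abs_of_pos hS0, hP, div_le_div_iff₀ hS0 (by linarith)]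
    have h10 : c * S ≤ δ * (-q.re) := by
      have : c * S = δ * (1 / (2 * R')) := by rw [hc]; field_simp
      rw [this]
      exact mul_le_mul_of_nonneg_left hre0 hδ0.le
    have h11 : |q.im| * (1 - C) ≤ Real.sqrt 3 * (-q.re) * (1 - C) :=
      mul_le_mul_of_nonneg_right hqim (by linarith)
    have e10 : δ * (-q.re) = S * (-q.re) - Real.sqrt 3 * (-q.re) * (1 - C) := by rw [hδ]; ring
    have e11 : (-q.re - c) * S = S * (-q.re) - c * S := by ring
    rw [e11]
    rw [e10] at h10
    linarith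
  have hP0 : 0 ≤ P := (abs_nonneg _).trans hPQ
  set a' : ℝ := (P + Q) / 2 with ha'
  set b' : ℝ := (P - Q) / 2 with hb'
  have ha0 : 0 ≤ a' := by rw [ha']; have := (abs_le.1 hPQ).1; linarith
  have hb0 : 0 ≤ b' := by rw [hb']; have := (abs_le.1 hPQ).2; linarith
  have hkey : q + (c : ℂ) = (a' : ℂ) * (ζ - 1) + (b' : ℂ) * (ζ' - 1) := by
    rw [hζre, hζ']
    apply Complex.ext
    · simp only [Complex.add_re, Complex.ofReal_re, Complex.mul_re, Complex.sub_re,
        Complex.one_re, Complex.ofReal_im, zero_mul, sub_zero]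
      have : (1 - C) * P = -q.re - c := by
        rw [hP]; field_simp [(by linarith : (1 : ℝ) - C ≠ 0)]
      rw [ha', hb']; nlinarith
    · simp only [Complex.add_im, Complex.ofReal_im, Complex.mul_im, Complex.sub_im,
        Complex.one_im, Complex.ofReal_re, zero_mul, sub_zero, add_zero]
      have : S * Q = q.im := by rw [hQ]; field_simp
      rw [ha', hb']; nlinarith
  refine ⟨u, hu, min (1 / (2 * c)) (1 / (2 * (P + 1))), by positivity, ?_⟩
  intro t ht0 ht
  have ht1 : c * t ≤ 1 / 2 := by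
    have := ht.trans (min_le_left _ _)
    rw [le_div_iff₀ (by positivity)] at this
    linarith
  have ht2 : t * P ≤ 1 / 2 := by
    have := ht.trans (min_le_right _ _)
    rw [le_div_iff₀ (by positivity)] at this
    nlinarith
  have h1c : 0 < 1 - c * t := by linarith
  refine ⟨by linarith, ((1 - c * t)⁻¹ : ℝ) • (z + t • u), ?_, ?_⟩
  · -- membership
    set s : ℝ := t / (1 - c * t) with hs
    have hs0 : 0 ≤ s := by rw [hs]; positivity
    have hs1 : s * P ≤ 1 := by
      rw [hs, div_mul_eq_mul_div, div_le_one h1c]; linarith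
    have e : ((1 - c * t)⁻¹ : ℝ) • (z + t • u) =
        (1 - s * (a' + b')) • z + (s * a') • (ζ * z) + (s * b') • (ζ' * z) := by
      have e1 : ((1 - c * t)⁻¹ : ℝ) • (z + t • u) = z + (s : ℂ) * ((q + c) * z) := by
        rw [← hqz]
        simp only [Complex.real_smul]
        rw [hs]
        push_cast
        have : (1 : ℂ) - c * t ≠ 0 := by
          have := h1c.ne'
          exact_mod_cast this
        field_simp
        ring
      rw [e1, hkey]
      simp only [Complex.real_smul]
      push_cast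
      ring
    rw [e]
    have hconv : Convex ℝ (cHull k z) := convex_convexHull ℝ _
    have hab : a' + b' = P := by rw [ha', hb']; ring
    have m1 := self_mem_cHull k z
    have m2 : ζ * z ∈ cHull k z := subset_convexHull ℝ _ ⟨ζ, hζk, rfl⟩
    have m3 : ζ' * z ∈ cHull k z := subset_convexHull ℝ _ ⟨ζ', hζ'k, rfl⟩
    have := hconv.sum_mem (t := Finset.univ) (w := ![1 - s * (a' + b'), s * a', s * b'])
      (z := ![z, ζ * z, ζ' * z]) (by
        intro i _
        fin_cases i
        · simp; rw [hab]; exact hs1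
        · simp; positivity
        · simp; positivity)
      (by simp [Fin.sum_univ_three]; ring)
      (by
        intro i _
        fin_cases i
        · exact m1
        · exact m2
        · exact m3)
    simpa [Fin.sum_univ_three] using this
  · rw [smul_smul, mul_inv_cancel₀ h1c.ne', one_smul]

end cyclic

section center

theorem avg_mem_interior {E : Type*} [NormedAddCommGroup E] [NormedSpace ℝ E] {K : Set E}
    (hK : Convex ℝ K) {n : ℕ} (hn : 0 < n) (L : Fin n → E ≃ₜ E) (hL : ∀ j, ∀ x ∈ K, L j x ∈ K)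
    {x : E} (hx : x ∈ interior K) : (1 / n : ℝ) • ∑ j, L j x ∈ interior K := by
  have h1 : ∀ j, L j x ∈ interior K := by
    intro j
    have h2 : L j '' K ⊆ K := by
      rintro _ ⟨y, hy, rfl⟩; exact hL j y hy
    apply interior_mono h2
    rw [← (L j).image_interior]
    exact ⟨x, hx, rfl⟩
  rw [Finset.smul_sum]
  apply hK.interior.sum_mem
  · intro i _; positivity
  · rw [Finset.sum_const, Finset.card_univ, Fintype.card_fin, nsmul_eq_mul, mul_one_div_cancel]
    exact_mod_cast hn.ne'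
  · intro i _; exact h1 i

end center

theorem coveredBy_mono {E : Type*} [NormedAddCommGroup E] {K : Set E} {a b : ℕ}
    (h : CoveredBy K a) (hab : a ≤ b) : CoveredBy K b := by
  obtain ⟨T, hT, hK⟩ := h
  exact ⟨T, hT.trans hab, hK⟩

section roundCase

variable {m : ℕ} {d : Fin m → ℕ}

theorem update_mem_round (hd : ∀ i, 1 ≤ d i) {K : Set (∀ i, EuclideanSpace ℝ (Fin (d i)))}
    (hK : Convex ℝ K) (hinv : ∀ x ∈ K, ∀ y, (∀ i, ‖y i‖ = ‖x i‖) → y ∈ K)
    (x : ∀ i, EuclideanSpace ℝ (Fin (d i))) (hx : x ∈ K) (i : Fin m)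
    (z : EuclideanSpace ℝ (Fin (d i))) (hz : z ∈ Metric.closedBall (0 : EuclideanSpace ℝ _) ‖x i‖) :
    Function.update x i z ∈ K := by
  have hnt : Nontrivial (EuclideanSpace ℝ (Fin (d i))) := by
    refine ⟨⟨EuclideanSpace.single ⟨0, hd i⟩ (1 : ℝ), 0, ?_⟩⟩
    intro h
    have := congrArg (fun v => v (⟨0, hd i⟩ : Fin (d i))) h
    simp at this
  rw [← convexHull_sphere_eq_closedBall (0 : EuclideanSpace ℝ (Fin (d i))) (norm_nonneg _)] at hz
  have hconv : Convex ℝ {w : EuclideanSpace ℝ (Fin (d i)) | Function.update x i w ∈ K} := by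
    intro w1 h1 w2 h2 a b ha hb hab
    have := hK h1 h2 ha hb hab
    show Function.update x i (a • w1 + b • w2) ∈ K
    convert this using 1
    ext1 j
    by_cases hj : j = i
    · subst hj; simp
    · simp only [Pi.add_apply, Pi.smul_apply, Function.update_of_ne hj]
      rw [← add_smul, hab, one_smul]
  have hsub : Metric.sphere (0 : EuclideanSpace ℝ (Fin (d i))) ‖x i‖ ⊆
      {w : EuclideanSpace ℝ (Fin (d i)) | Function.update x i w ∈ K} := by
    intro w hw
    apply hinv x hx
    intro j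
    by_cases hj : j = i
    · subst hj; simpa using hw
    · rw [Function.update_of_ne hj]
  exact convexHull_min hsub hconv hz

theorem star_round {V : Type*} [NormedAddCommGroup V] [NormedSpace ℝ V] (y z : V)
    (hz : z ∈ Metric.closedBall (0 : V) ‖y‖) (a : ℝ) (h0 : 0 ≤ a) (h1 : a ≤ 1) :
    a • z ∈ Metric.closedBall (0 : V) ‖y‖ := by
  simp only [Metric.mem_closedBall, dist_zero_right] at hz ⊢
  rw [norm_smul, Real.norm_eq_abs, abs_of_nonneg h0]
  nlinarith [norm_nonneg z]

theorem dir_nonempty {ι : Type*} [Fintype ι] [DecidableEq ι] [Nonempty ι] {V : ι → Type*}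
    [∀ i, NormedAddCommGroup (V i)] [∀ i, NormedSpace ℝ (V i)] [∀ i, DecidableEq (V i)]
    {D : ∀ i, Finset (V i)} (h0 : ∀ i, (0 : V i) ∉ D i) (hne : ∀ i, (D i).Nonempty) :
    (prodDir D).Nonempty := by
  choose u hu using hne
  refine ⟨u, ?_⟩
  unfold prodDir
  rw [Finset.mem_erase, Fintype.mem_piFinset]
  refine ⟨?_, fun i => Finset.mem_insert_of_mem (hu i)⟩
  intro h
  obtain ⟨i⟩ := ‹Nonempty ι›
  exact h0 i (by have := congrFun h i; rw [Pi.zero_apply] at this; rw [← this]; exact hu i)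

end roundCase

section cyclicCase

variable {m k : ℕ}

theorem update_mem_cyc {K : Set (Fin m → ℂ)}
    (hK : Convex ℝ K) (hinv : ∀ z ∈ K, ∀ ω : Fin m → ℂ, (∀ i, ω i ^ k = 1) → ω * z ∈ K)
    (x : Fin m → ℂ) (hx : x ∈ K) (i : Fin m) (z : ℂ) (hz : z ∈ cHull k (x i)) :
    Function.update x i z ∈ K := by
  have hconv : Convex ℝ {w : ℂ | Function.update x i w ∈ K} := by
    intro w1 h1 w2 h2 a b ha hb hab
    have := hK h1 h2 ha hb hab
    show Function.update x i (a • w1 + b • w2) ∈ K
    convert this using 1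
    ext1 j
    by_cases hj : j = i
    · subst hj; simp
    · simp only [Pi.add_apply, Pi.smul_apply, Function.update_of_ne hj]
      rw [← add_smul, hab, one_smul]
  refine convexHull_min ?_ hconv hz
  rintro _ ⟨ω, hω, rfl⟩
  have := hinv x hx (Function.update 1 i ω) (by
    intro j
    by_cases hj : j = i
    · subst hj; simpa using hω
    · rw [Function.update_of_ne hj]; simp)
  show Function.update x i (ω * x i) ∈ K
  convert this using 1
  ext1 j
  by_cases hj : j = i
  · subst hj; simp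
  · simp [Function.update_of_ne hj]

/-- multiplication by the powers of the primitive root -/
noncomputable def rotHomeo (m k : ℕ) (j : Fin k) : (Fin m → ℂ) ≃ₜ (Fin m → ℂ) :=
  Homeomorph.smulOfNeZero (Complex.exp (2 * Real.pi * Complex.I / k) ^ (j : ℕ))
    (pow_ne_zero _ (Complex.exp_ne_zero _))

theorem rotHomeo_sum (hk : 2 ≤ k) (x : Fin m → ℂ) : ∑ j, rotHomeo m k j x = 0 := by
  have hprim := Complex.isPrimitiveRoot_exp k (by omega)
  have hsum := hprim.geom_sum_eq_zero (by omega)
  have : ∑ j, rotHomeo m k j x =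
      (∑ j ∈ Finset.range k, Complex.exp (2 * Real.pi * Complex.I / k) ^ j) • x := by
    rw [Finset.sum_smul, Finset.sum_range]
    rfl
  rw [this, hsum, zero_smul]

theorem rotHomeo_mem (hk : 2 ≤ k) {K : Set (Fin m → ℂ)}
    (hinv : ∀ z ∈ K, ∀ ω : Fin m → ℂ, (∀ i, ω i ^ k = 1) → ω * z ∈ K) (j : Fin k)
    (x : Fin m → ℂ) (hx : x ∈ K) : rotHomeo m k j x ∈ K := by
  have hprim := Complex.isPrimitiveRoot_exp k (by omega)
  have := hinv x hx (fun _ => Complex.exp (2 * Real.pi * Complex.I / k) ^ (j : ℕ)) (by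
    intro i
    rw [pow_right_comm, hprim.pow_eq_one, one_pow])
  exact this

end cyclicCase

section combined

variable {m n k : ℕ} {d : Fin n → ℕ}

/-- ambient space of the blocks -/
abbrev Amb (m : ℕ) {n : ℕ} (d : Fin n → ℕ) : Type :=
  (Fin m → ℂ) × (∀ i, EuclideanSpace ℝ (Fin (d i)))

/-- hulls of the blocks -/
def blockHull (m k : ℕ) {n : ℕ} (d : Fin n → ℕ) : Amb m d → Set (Amb m d) :=
  pairHull (prodHull fun _ : Fin m => cHull k)
    (prodHull fun i (y : EuclideanSpace ℝ (Fin (d i))) => Metric.closedBall 0 ‖y‖)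

/-- directions for the blocks -/
noncomputable def blockDir (m : ℕ) {n : ℕ} (d : Fin n → ℕ) : Finset (Amb m d) := by
  classical
  exact pairDir (prodDir fun _ : Fin m => cDir) (prodDir fun i => eDir (d i))

theorem good_block (hk : 7 ≤ k) (hd : ∀ i, 1 ≤ d i) : Good (blockHull m k d) (blockDir m d) := by
  classical
  have h1 := good_prod (ι := Fin m) (V := fun _ => ℂ) (fun i => good_cDir hk)
    (fun i y z hz a h0 h1 => star_cHull (by omega) y z hz a h0 h1)
    (fun i y => self_mem_cHull k y)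
  have h2 := good_prod (fun i => good_eDir (hd i))
    (fun i y z hz a h0 h1 => star_round y z hz a h0 h1)
    (fun i y => by simp)
  exact good_pair h1 h2
    (fun y z hz a h0 h1 i => star_cHull (by omega) (y i) (z i) (hz i) a h0 h1)
    (fun y i => self_mem_cHull k (y i))
    (fun y z hz a h0 h1 i => star_round (y i) (z i) (hz i) a h0 h1)
    (fun y i => by simp)

theorem card_blockDir : (blockDir m d).card + 1 ≤ 4 ^ m * ∏ i, (d i + 2) := by
  classical
  apply card_pairDir
  · have h1 := card_prodDir (fun _ : Fin m => cDir) (n := fun _ => 3) fun i => card_cDir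
    have h2 : ∏ _i : Fin m, (3 + 1) = 4 ^ m := by simp
    rw [h2] at h1
    have h3 : 0 < 4 ^ m := by positivity
    omega
  · have h1 := card_prodDir (fun i => eDir (d i)) (n := fun i => d i + 1) fun i => card_eDir (d i)
    have h2 : 0 < ∏ i, (d i + 1 + 1) := Finset.prod_pos fun i _ => by omega
    have h3 : ∏ i, (d i + 1 + 1) = ∏ i, (d i + 2) := rfl
    omega

theorem blockHull_subset (hd : ∀ i, 1 ≤ d i) {K : Set (Amb m d)} (hK : Convex ℝ K)
    (hinv : ∀ z x, (z, x) ∈ K → ∀ ω : Fin m → ℂ, ∀ y : (∀ i, EuclideanSpace ℝ (Fin (d i))),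
      (∀ i, ω i ^ k = 1) → (∀ i, ‖y i‖ = ‖x i‖) → (ω * z, y) ∈ K) :
    ∀ w ∈ K, blockHull m k d w ⊆ K := by
  classical
  rintro ⟨z, x⟩ hw ⟨z', x'⟩ ⟨h1, h2⟩
  have hsec1 : ∀ x, Convex ℝ {z : Fin m → ℂ | (z, x) ∈ K} := by
    intro x a ha b hb s t hs ht hst
    have := hK ha hb hs ht hst
    simp only [Prod.smul_mk, Prod.mk_add_mk] at this
    rw [← add_smul, hst, one_smul] at this
    exact this
  have hsec2 : ∀ z, Convex ℝ {x : (∀ i, EuclideanSpace ℝ (Fin (d i))) | (z, x) ∈ K} := by
    intro z a ha b hb s t hs ht hst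
    have := hK ha hb hs ht hst
    simp only [Prod.smul_mk, Prod.mk_add_mk] at this
    rw [← add_smul, hst, one_smul] at this
    exact this
  have step1 : (z', x) ∈ K :=
    prodHull_subset (K := {z : Fin m → ℂ | (z, x) ∈ K})
      (fun z hz i c hc => update_mem_cyc (hsec1 x)
        (fun z hz ω hω => hinv z x hz ω x hω (fun i => rfl)) z hz i c hc) z hw h1
  exact prodHull_subset (K := {x | (z', x) ∈ K})
      (fun x hx i c hc => update_mem_round hd (hsec2 z')
        (fun x hx y hy => by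
          have := hinv z' x hx 1 y (by simp) hy
          simpa using this) x hx i c hc) x step1 h2

theorem even_case (hmn : 0 < m + n) (hk : 7 ≤ k) (hd : ∀ i, 1 ≤ d i) {K : Set (Amb m d)}
    (hK : Convex ℝ K) (hc : IsCompact K) (hint : (interior K).Nonempty)
    (hinv : ∀ z x, (z, x) ∈ K → ∀ ω : Fin m → ℂ, ∀ y : (∀ i, EuclideanSpace ℝ (Fin (d i))),
      (∀ i, ω i ^ k = 1) → (∀ i, ‖y i‖ = ‖x i‖) → (ω * z, y) ∈ K) :
    CoveredBy K (blockDir m d).card := by
  classical
  obtain ⟨⟨z0, x0⟩, hx0⟩ := hint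
  have h0 : (0 : Amb m d) ∈ interior K := by
    have step1 := avg_mem_interior hK (n := 2) two_pos
      (![Homeomorph.refl _, (Homeomorph.refl (Fin m → ℂ)).prodCongr (Homeomorph.neg _)]) (by
        rintro j ⟨z, x⟩ hx
        fin_cases j
        · exact hx
        · have := hinv z x hx 1 (-x) (by simp) (by simp)
          simpa using this) hx0
    have e1 : (1 / (2 : ℕ) : ℝ) • ∑ j : Fin 2, (![Homeomorph.refl _,
        (Homeomorph.refl (Fin m → ℂ)).prodCongr (Homeomorph.neg _)] j) (z0, x0)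
        = (z0, (0 : ∀ i, EuclideanSpace ℝ (Fin (d i)))) := by
      rw [Fin.sum_univ_two]
      ext1
      · show (1 / ((2 : ℕ) : ℝ)) • (z0 + z0) = z0
        rw [← two_smul ℝ z0, smul_smul]
        norm_num
      · show (1 / ((2 : ℕ) : ℝ)) • (x0 + -x0) = 0
        simp
    rw [e1] at step1
    have step2 := avg_mem_interior hK (n := k) (by omega)
      (fun j => (rotHomeo m k j).prodCongr (Homeomorph.refl _)) (by
        rintro j ⟨z, x⟩ hx
        exact rotHomeo_mem (K := {z | (z, x) ∈ K}) (by omega)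
          (fun z hz ω hω => hinv z x hz ω x hω (fun i => rfl)) j z hx) step1
    have e2 : (1 / k : ℝ) • ∑ j : Fin k, ((rotHomeo m k j).prodCongr
        (Homeomorph.refl (∀ i, EuclideanSpace ℝ (Fin (d i))))) (z0, 0) = 0 := by
      have : ∀ j : Fin k, ((rotHomeo m k j).prodCongr
          (Homeomorph.refl (∀ i, EuclideanSpace ℝ (Fin (d i))))) (z0, 0)
          = (rotHomeo m k j z0, (0 : ∀ i, EuclideanSpace ℝ (Fin (d i)))) := fun j => rfl
      simp only [this]
      ext1
      · rw [Prod.smul_fst, Prod.fst_sum, rotHomeo_sum (by omega)]; simp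
      · rw [Prod.smul_snd, Prod.snd_sum]; simp
    rw [e2] at step2
    exact step2
  have hne : (blockDir m d).Nonempty := by
    unfold blockDir pairDir
    rcases Nat.eq_zero_or_pos m with hm | hm
    · have hn : 0 < n := by omega
      have : Nonempty (Fin n) := ⟨⟨0, hn⟩⟩
      obtain ⟨u, hu⟩ := dir_nonempty (fun i => (good_eDir (hd i)).1)
        (fun i => ⟨_, Finset.mem_insert_self _ _⟩)
      refine ⟨(0, u), ?_⟩
      rw [Finset.mem_erase, Finset.mem_product]
      refine ⟨?_, Finset.mem_insert_self _ _, Finset.mem_insert_of_mem hu⟩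
      intro h
      rw [Prod.mk_eq_zero] at h
      rw [h.2] at hu
      unfold prodDir at hu
      simp at hu
    · have : Nonempty (Fin m) := ⟨⟨0, hm⟩⟩
      obtain ⟨u, hu⟩ : (prodDir fun _ : Fin m => cDir).Nonempty :=
        dir_nonempty (fun i => (good_cDir hk).1) (fun i => ⟨1, by simp [cDir]⟩)
      refine ⟨(u, 0), ?_⟩
      rw [Finset.mem_erase, Finset.mem_product]
      refine ⟨?_, Finset.mem_insert_of_mem hu, Finset.mem_insert_self _ _⟩
      intro h
      rw [Prod.mk_eq_zero] at h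
      rw [h.1] at hu
      unfold prodDir at hu
      simp at hu
  exact covered_even hK hc h0 (good_block hk hd) hne (blockHull_subset hd hK hinv)

theorem odd_case (hk : 7 ≤ k) (hd : ∀ i, 1 ≤ d i) {K : Set (ℝ × Amb m d)}
    (hK : Convex ℝ K) (hc : IsCompact K) (hint : (interior K).Nonempty)
    (hinv : ∀ (s : ℝ) z x, (s, z, x) ∈ K → ∀ s' : ℝ, ∀ ω : Fin m → ℂ,
      ∀ y : (∀ i, EuclideanSpace ℝ (Fin (d i))),
      |s'| = |s| → (∀ i, ω i ^ k = 1) → (∀ i, ‖y i‖ = ‖x i‖) → (s', ω * z, y) ∈ K) :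
    CoveredBy K (2 * ((blockDir m d).card + 1)) := by
  classical
  obtain ⟨⟨s0, z0, x0⟩, hx0⟩ := hint
  have h0 : (0 : ℝ × Amb m d) ∈ interior K := by
    have step1 := avg_mem_interior hK (n := 2) two_pos
      (![Homeomorph.refl _, (Homeomorph.neg ℝ).prodCongr
        ((Homeomorph.refl (Fin m → ℂ)).prodCongr (Homeomorph.neg _))]) (by
        rintro j ⟨s, z, x⟩ hx
        fin_cases j
        · exact hx
        · have := hinv s z x hx (-s) 1 (-x) (by simp) (by simp) (by simp)
          simpa using this) hx0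
    have e1 : (1 / (2 : ℕ) : ℝ) • ∑ j : Fin 2, (![Homeomorph.refl _, (Homeomorph.neg ℝ).prodCongr
        ((Homeomorph.refl (Fin m → ℂ)).prodCongr (Homeomorph.neg _))] j) (s0, z0, x0)
        = ((0 : ℝ), z0, (0 : ∀ i, EuclideanSpace ℝ (Fin (d i)))) := by
      rw [Fin.sum_univ_two]
      ext1
      · show (1 / ((2 : ℕ) : ℝ)) • (s0 + -s0) = 0
        simp
      ext1
      · show (1 / ((2 : ℕ) : ℝ)) • (z0 + z0) = z0
        rw [← two_smul ℝ z0, smul_smul]
        norm_num
      · show (1 / ((2 : ℕ) : ℝ)) • (x0 + -x0) = 0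
        simp
    rw [e1] at step1
    have step2 := avg_mem_interior hK (n := k) (by omega)
      (fun j => (Homeomorph.refl ℝ).prodCongr ((rotHomeo m k j).prodCongr (Homeomorph.refl _))) (by
        rintro j ⟨s, z, x⟩ hx
        exact rotHomeo_mem (K := {z | (s, z, x) ∈ K}) (by omega)
          (fun z hz ω hω => hinv s z x hz s ω x rfl hω (fun i => rfl)) j z hx) step1
    have e2 : (1 / k : ℝ) • ∑ j : Fin k, ((Homeomorph.refl ℝ).prodCongr ((rotHomeo m k j).prodCongr
        (Homeomorph.refl (∀ i, EuclideanSpace ℝ (Fin (d i)))))) (0, z0, 0) = 0 := by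
      have : ∀ j : Fin k, ((Homeomorph.refl ℝ).prodCongr ((rotHomeo m k j).prodCongr
          (Homeomorph.refl (∀ i, EuclideanSpace ℝ (Fin (d i)))))) (0, z0, 0)
          = ((0 : ℝ), rotHomeo m k j z0, (0 : ∀ i, EuclideanSpace ℝ (Fin (d i)))) := fun j => rfl
      simp only [this]
      ext1
      · rw [Prod.smul_fst, Prod.fst_sum]; simp
      rw [Prod.smul_snd, Prod.snd_sum]
      ext1
      · rw [Prod.smul_fst, Prod.fst_sum, rotHomeo_sum (by omega)]; simp
      · rw [Prod.smul_snd, Prod.snd_sum]; simp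
    rw [e2] at step2
    exact step2
  have hsec : ∀ s : ℝ, Convex ℝ {x : Amb m d | (s, x) ∈ K} := by
    intro s x hx y hy a b ha hb hab
    have := hK hx hy ha hb hab
    simp only [Prod.smul_mk, Prod.mk_add_mk] at this
    rw [← add_smul, hab, one_smul] at this
    exact this
  exact covered_odd hK hc h0 (good_block hk hd)
    (fun y z hz a h0 h1 => ⟨fun i => star_cHull (by omega) (y.1 i) (z.1 i) (hz.1 i) a h0 h1,
      fun i => star_round (y.2 i) (z.2 i) (hz.2 i) a h0 h1⟩)
    (fun y => ⟨fun i => self_mem_cHull k (y.1 i), fun i => by simp⟩)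
    (fun s x hx => by
      obtain ⟨z, x⟩ := x
      have := hinv s z x hx (-s) 1 x (by simp) (by simp) (fun i => rfl)
      simpa using this)
    (fun s x hx z hz => blockHull_subset hd (hsec s)
      (fun z x hx ω y hω hy => hinv s z x hx s ω y rfl hω hy) x hx hz)

end combined

/-- Hadwiger's covering bound for convex bodies with block symmetry: `j ≤ 1` real coordinates with
`s ↦ -s`, `m` complex coordinates with multiplication by `k`-th roots of unity (`k ≥ 7`), and
blocks `ℝ ^ (d i)` with all rotations. -/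
theorem result (j m n k : ℕ) (d : Fin n → ℕ) (hj : j ≤ 1) (hpos : 0 < j + m + n) (hk : 7 ≤ k)
    (hd : ∀ i, 1 ≤ d i)
    (K : Set ((Fin j → ℝ) × (Fin m → ℂ) × (∀ i, EuclideanSpace ℝ (Fin (d i)))))
    (hconv : Convex ℝ K) (hcomp : IsCompact K) (hint : (interior K).Nonempty)
    (hsymm : ∀ s z x, (s, z, x) ∈ K → ∀ s' ω y, (∀ i, |s' i| = |s i|) → (∀ i, ω i ^ k = 1) →
      (∀ i, ‖y i‖ = ‖x i‖) → (s', ω * z, y) ∈ K) :
    ∃ T : Finset ((Fin j → ℝ) × (Fin m → ℂ) × (∀ i, EuclideanSpace ℝ (Fin (d i)))),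
      K ⊆ ⋃ t ∈ T, (fun x => t + x) '' interior K ∧
      T.card + (1 - j) ≤ 2 ^ j * 4 ^ m * ∏ i, (d i + 2) ∧
      ((∀ i, 2 ≤ d i) → T.card + (1 - j) ≤ 2 ^ (j + 2 * m + ∑ i, d i)) := by
  classical
  have hnum : (∀ i, 2 ≤ d i) → 2 ^ j * 4 ^ m * ∏ i, (d i + 2) ≤ 2 ^ (j + 2 * m + ∑ i, d i) := by
    intro hd2
    rw [pow_add, pow_add, ← Finset.prod_pow_eq_pow_sum, pow_mul]
    apply Nat.mul_le_mul le_rfl
    apply Finset.prod_le_prod'
    intro i _
    have h2 := hd2 i
    generalize d i = n at h2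
    induction n, h2 using Nat.le_induction with
    | base => norm_num
    | succ n hn ih => rw [pow_succ]; omega
  suffices h : ∃ T : Finset ((Fin j → ℝ) × (Fin m → ℂ) × (∀ i, EuclideanSpace ℝ (Fin (d i)))),
      K ⊆ ⋃ t ∈ T, (fun x => t + x) '' interior K ∧
      T.card + (1 - j) ≤ 2 ^ j * 4 ^ m * ∏ i, (d i + 2) by
    obtain ⟨T, h1, h2⟩ := h
    exact ⟨T, h1, h2, fun h3 => h2.trans (hnum h3)⟩
  have hcard := card_blockDir (m := m) (d := d)
  obtain rfl | rfl : j = 0 ∨ j = 1 := by omega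
  · -- no real coordinate
    let L : ((Fin 0 → ℝ) × Amb m d) ≃L[ℝ] Amb m d :=
      ContinuousLinearEquiv.equivOfInverse (ContinuousLinearMap.snd ℝ (Fin 0 → ℝ) (Amb m d))
        (ContinuousLinearMap.inr ℝ (Fin 0 → ℝ) (Amb m d))
        (fun x => by ext1; · exact Subsingleton.elim _ _
                     · rfl) (fun x => rfl)
    have hconv' : Convex ℝ (L '' K) := hconv.linear_image L.toLinearEquiv.toLinearMap
    have hcomp' : IsCompact (L '' K) := hcomp.image L.continuous
    have hint' : (interior (L '' K)).Nonempty := by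
      obtain ⟨x, hx⟩ := hint
      refine ⟨L x, ?_⟩
      rw [show interior (L '' K) = L '' interior K from (L.toHomeomorph.image_interior K).symm]
      exact ⟨x, hx, rfl⟩
    have := even_case (m := m) (n := n) (k := k) (d := d) (by omega) hk hd hconv' hcomp' hint' (by
      rintro z x ⟨⟨s, z', x'⟩, hs, he⟩ ω y hω hy
      have he : (z', x') = (z, x) := he
      rw [Prod.mk.injEq] at he
      obtain ⟨rfl, rfl⟩ := he
      exact ⟨(s, ω * z', y), hsymm s z' x' hs s ω y (fun i => rfl) hω hy, rfl⟩)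
    obtain ⟨T, hT, hK⟩ := coveredBy_transfer L this
    refine ⟨T, hK, ?_⟩
    simp only [pow_zero, one_mul]
    omega
  · let L : ((Fin 1 → ℝ) × Amb m d) ≃L[ℝ] ℝ × Amb m d :=
      (ContinuousLinearEquiv.funUnique (Fin 1) ℝ ℝ).prodCongr (ContinuousLinearEquiv.refl ℝ _)
    have hconv' : Convex ℝ (L '' K) := hconv.linear_image L.toLinearEquiv.toLinearMap
    have hcomp' : IsCompact (L '' K) := hcomp.image L.continuous
    have hint' : (interior (L '' K)).Nonempty := by
      obtain ⟨x, hx⟩ := hint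
      refine ⟨L x, ?_⟩
      rw [show interior (L '' K) = L '' interior K from (L.toHomeomorph.image_interior K).symm]
      exact ⟨x, hx, rfl⟩
    have := odd_case (m := m) (n := n) (k := k) (d := d) hk hd hconv' hcomp' hint' (by
      rintro s z x ⟨⟨s1, z', x'⟩, hs, he⟩ s' ω y hs' hω hy
      have he : (s1 0, z', x') = (s, z, x) := he
      rw [Prod.mk.injEq, Prod.mk.injEq] at he
      obtain ⟨h1, rfl, rfl⟩ := he
      refine ⟨(fun _ => s', ω * z', y), hsymm s1 z' x' hs (fun _ => s') ω y (fun i => ?_) hω hy,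
        rfl⟩
      rw [Subsingleton.elim i 0, hs', h1])
    obtain ⟨T, hT, hK⟩ := coveredBy_transfer L this
    refine ⟨T, hK, ?_⟩
    simp only [pow_one]
    have : 2 * 4 ^ m * ∏ i, (d i + 2) = 2 * (4 ^ m * ∏ i, (d i + 2)) := by ring
    rw [this]
    omega

end Pool.Agent.Results.MP_eba1ef_gt.BlockSymmetric
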